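import Pool.Agent.H590Z.HC.Blk

/-! The block product changes little under a shift by one half. -/

set_option autoImplicit false

open Finset

namespace Pool.Agent.H590Z.HC.Rat3

/-- `y ^ (-3/2)` -/
noncomputable def A (y : ℝ) : ℝ := 1 / (y * Real.sqrt y)

theorem A_nonneg {y : ℝ} (hy : 0 ≤ y) : 0 ≤ A y := by
  unfold A; positivity

theorem sum_A (n : ℕ) : ∑ i ∈ range (n + 1), A ((i : ℝ) + 1) ≤ 3 - 2 / Real.sqrt ((n : ℝ) + 1) := by
  induction n with
  | zero => simp [A]; norm_num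
  | succ n ih =>
    rw [sum_range_succ]
    push_cast
    set a := Real.sqrt ((n : ℝ) + 1) with ha
    set b := Real.sqrt ((n : ℝ) + 1 + 1) with hb
    have hn : (0 : ℝ) ≤ n := Nat.cast_nonneg n
    have ha0 : 0 < a := Real.sqrt_pos.mpr (by linarith)
    have hb0 : 0 < b := Real.sqrt_pos.mpr (by linarith)
    have ha2 : a ^ 2 = n + 1 := Real.sq_sqrt (by linarith)
    have hb2 : b ^ 2 = n + 1 + 1 := Real.sq_sqrt (by linarith)
    have hab : a ≤ b := Real.sqrt_le_sqrt (by linarith)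
    have h1 : A ((n : ℝ) + 1 + 1) ≤ 2 / a - 2 / b := by
      unfold A
      rw [← hb, ← hb2, div_sub_div _ _ ha0.ne' hb0.ne', div_le_div_iff₀ (by positivity)
        (by positivity)]
      have h2 : (b - a) * (b + a) = 1 := by nlinarith
      have h3 : 0 ≤ b - a := by linarith
      have h4 : a * b * (b + a) ≤ 2 * (b ^ 2 * b) := by
        have : a * (b + a) ≤ b * (b + b) := by nlinarith
        nlinarith
      have h5 := mul_le_mul_of_nonneg_left h4 h3
      have h6 : (b - a) * (a * b * (b + a)) = a * b := by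
        rw [show (b - a) * (a * b * (b + a)) = a * b * ((b - a) * (b + a)) by ring, h2, mul_one]
      rw [h6] at h5
      linarith
    linarith

theorem sum_A' (n : ℕ) : ∑ i ∈ range n, A ((i : ℝ) + 1) ≤ 3 := by
  rcases n with _ | n
  · simp
  · have := sum_A n
    have h : 0 ≤ 2 / Real.sqrt ((n : ℝ) + 1) := by positivity
    linarith

theorem sum_erase (K k : ℕ) : ∑ j ∈ (range K).erase k, A |(k : ℝ) - j| ≤ 6 := by
  have hsub : (range K).erase k ⊆ range k ∪ Ico (k + 1) K := by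
    intro j hj
    simp only [mem_erase, mem_range, mem_union, mem_Ico] at hj ⊢
    omega
  have h1 : ∑ j ∈ (range K).erase k, A |(k : ℝ) - j| ≤
      ∑ j ∈ range k ∪ Ico (k + 1) K, A |(k : ℝ) - j| :=
    sum_le_sum_of_subset_of_nonneg hsub fun j _ _ => A_nonneg (abs_nonneg _)
  have hd : Disjoint (range k) (Ico (k + 1) K) := by
    rw [disjoint_left]
    intro j h1 h2
    simp only [mem_range, mem_Ico] at h1 h2
    omega
  rw [sum_union hd] at h1
  have h2 : ∑ j ∈ range k, A |(k : ℝ) - j| = ∑ i ∈ range k, A ((i : ℝ) + 1) := by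
    rw [← sum_range_reflect]
    refine sum_congr rfl fun i hi => ?_
    have hi' : i < k := mem_range.mp hi
    have e : ((k - 1 - i : ℕ) : ℝ) = k - 1 - i := by
      rw [Nat.sub_sub, Nat.cast_sub (by omega)]
      push_cast; ring
    rw [e, abs_of_nonneg (by have : (0 : ℝ) ≤ i := Nat.cast_nonneg i; linarith)]
    congr 1; ring
  have h3 : ∑ j ∈ Ico (k + 1) K, A |(k : ℝ) - j| =
      ∑ i ∈ range (K - (k + 1)), A ((i : ℝ) + 1) := by
    rw [sum_Ico_eq_sum_range]
    refine sum_congr rfl fun i _ => ?_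
    push_cast
    rw [abs_of_nonpos (by have : (0 : ℝ) ≤ i := Nat.cast_nonneg i; linarith)]
    congr 1; ring
  rw [h2, h3] at h1
  linarith [sum_A' k, sum_A' (K - (k + 1))]

/-- the relative change of one factor -/
noncomputable def eps (y η : ℝ) : ℂ :=
  (1 / 2 : ℂ) * (-(Complex.I * η)) / ((y : ℂ) * (((y + 1 / 2 : ℝ) : ℂ) - Complex.I * η))

theorem ne_of {y η : ℝ} (hη : η ≠ 0) : (y : ℂ) - Complex.I * η ≠ 0 := by
  intro h
  have := congrArg Complex.im h
  simp at this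
  exact hη this

theorem fac (y η : ℝ) (hy : y ≠ 0) (hη : η ≠ 0) :
    ((y + 1 / 2 : ℝ) : ℂ) / (((y + 1 / 2 : ℝ) : ℂ) - Complex.I * η) =
      (y : ℂ) / ((y : ℂ) - Complex.I * η) * (1 + eps y η) := by
  have h1 := ne_of (y := y) hη
  have h2 := ne_of (y := y + 1 / 2) hη
  have h3 : (y : ℂ) ≠ 0 := by exact_mod_cast hy
  unfold eps
  set w := ((y + 1 / 2 : ℝ) : ℂ) - Complex.I * η with hw
  have e : ((y + 1 / 2 : ℝ) : ℂ) = (y : ℂ) + 1 / 2 := by push_cast; ring
  have hw' : w = (y : ℂ) + 1 / 2 - Complex.I * η := by rw [hw, e]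
  clear_value w
  rw [e]
  field_simp
  rw [hw']
  ring

theorem eps_le {y η s h l : ℝ} (hs : 1000 ≤ s) (hh : s ≤ h) (hh' : h ≤ 3 * s ^ 2) (hl : 1 ≤ l)
    (hη : |η| = h) (hy : l * s / 2 ≤ |y|) : ‖eps y η‖ ≤ 7 / 4 / Real.sqrt s * A l := by
  have hs0 : 0 < s := by linarith
  have hh0 : 0 < h := by linarith
  have hls : 1000 ≤ l * s := by nlinarith
  have hy0 : 0 < |y| := by linarith
  have hy' : 999 / 2000 * (l * s) ≤ |y + 1 / 2| := by
    have := abs_add_le (y + 1 / 2) (-(1 / 2))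
    rw [show y + 1 / 2 + -(1 / 2) = y by ring, abs_neg, abs_of_pos (by norm_num : (0 : ℝ) < 1 / 2)]
      at this
    linarith
  set w := ((y + 1 / 2 : ℝ) : ℂ) - Complex.I * η with hw
  have hw2 : ‖w‖ ^ 2 = |y + 1 / 2| ^ 2 + h ^ 2 := by
    rw [← hη, sq_abs, sq_abs, Complex.sq_norm, Complex.normSq_apply, hw]
    simp
    ring
  have hw3 : 999 / 1000 * (l * s) * h ≤ ‖w‖ ^ 2 := by
    rw [hw2]
    nlinarith [sq_nonneg (|y + 1 / 2| - h)]
  have hw0 : 0 < ‖w‖ := by
    by_contra hc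
    have : ‖w‖ = 0 := le_antisymm (not_lt.mp hc) (norm_nonneg _)
    rw [this] at hw3
    have : 0 < 999 / 1000 * (l * s) * h := by positivity
    linarith
  have hn : ‖eps y η‖ = h / 2 / (|y| * ‖w‖) := by
    unfold eps
    rw [← hw, norm_div, norm_mul, norm_mul, norm_neg, norm_mul, Complex.norm_I, Complex.norm_real,
      Complex.norm_real, Real.norm_eq_abs, Real.norm_eq_abs, hη]
    norm_num
    ring
  set a := Real.sqrt s with ha
  set b := Real.sqrt l with hb
  have ha0 : 0 < a := Real.sqrt_pos.mpr hs0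
  have hb0 : 0 < b := Real.sqrt_pos.mpr (by linarith)
  have ha2 : a ^ 2 = s := Real.sq_sqrt hs0.le
  have hb2 : b ^ 2 = l := Real.sq_sqrt (by linarith)
  have key : h * (a * b) ≤ 7 / 4 * s * ‖w‖ := by
    refine le_of_sq_le_sq ?_ (by positivity)
    have e1 : (h * (a * b)) ^ 2 = h * h * (l * s) := by rw [mul_pow, mul_pow, ha2, hb2]; ring
    have e2 : (7 / 4 * s * ‖w‖) ^ 2 = 49 / 16 * s ^ 2 * ‖w‖ ^ 2 := by ring
    rw [e1, e2]
    have h1 : 49 / 16 * s ^ 2 * (999 / 1000 * (l * s) * h) ≤ 49 / 16 * s ^ 2 * ‖w‖ ^ 2 :=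
      mul_le_mul_of_nonneg_left hw3 (by positivity)
    have h2 : h * (h * (l * s)) ≤ 3 * s ^ 2 * (h * (l * s)) :=
      mul_le_mul_of_nonneg_right hh' (by positivity)
    have h3 : 0 ≤ s ^ 2 * (h * (l * s)) := by positivity
    nlinarith
  rw [hn, A, ← hb, div_mul_div_comm, div_le_div_iff₀ (by positivity) (by positivity)]
  have h4 : l * s / 2 * ‖w‖ ≤ |y| * ‖w‖ := mul_le_mul_of_nonneg_right hy hw0.le
  have h5 : l * (h * (a * b)) ≤ l * (7 / 4 * s * ‖w‖) :=
    mul_le_mul_of_nonneg_left key (by linarith)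
  nlinarith

end Pool.Agent.H590Z.HC.Rat3

namespace Pool.Agent.H590Z.HC

open Rat3

theorem blk_ratio (T s h u σ : ℝ) (K k : ℕ) (hs : 1000 ≤ s) (hh : s ≤ h) (hh' : h ≤ 3 * s ^ 2)
    (hσ : 0 < σ) (hσ' : σ ^ 2 ≤ s) (hu : |u| ≤ s / 2) :
    ‖∏ j ∈ (range K).erase k, (((nd T s k + u + 1 / 2 : ℝ) : ℂ) - nd T s j) /
        (((nd T s k + u + 1 / 2 : ℝ) : ℂ) - zr T s h j) -
      ∏ j ∈ (range K).erase k, (((nd T s k + u : ℝ) : ℂ) - nd T s j) /
        (((nd T s k + u : ℝ) : ℂ) - zr T s h j)‖ ≤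
      30 / σ * ‖∏ j ∈ (range K).erase k, (((nd T s k + u : ℝ) : ℂ) - nd T s j) /
        (((nd T s k + u : ℝ) : ℂ) - zr T s h j)‖ := by
  have hs0 : 0 < s := by linarith
  have hh0 : 0 < h := by linarith
  let y : ℕ → ℝ := fun j => ((k : ℝ) - j) * s + u
  let η : ℕ → ℝ := fun j => (-1) ^ j * h
  have hη : ∀ j, |η j| = h := by
    intro j
    simp only [η]
    rw [abs_mul, abs_pow, abs_neg, abs_one, one_pow, one_mul, abs_of_pos hh0]
  have hl : ∀ j ∈ (range K).erase k, (1 : ℝ) ≤ |(k : ℝ) - j| := by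
    intro j hj
    have hne : j ≠ k := (mem_erase.mp hj).1
    have : (1 : ℤ) ≤ |(k : ℤ) - j| := Int.one_le_abs (by omega)
    exact_mod_cast this
  have hy : ∀ j ∈ (range K).erase k, |(k : ℝ) - j| * s / 2 ≤ |y j| := by
    intro j hj
    have h1 := hl j hj
    have h2 := abs_add_le (y j) (-u)
    have e : y j + -u = ((k : ℝ) - j) * s := by simp only [y]; ring
    rw [e, abs_mul, abs_of_pos hs0, abs_neg] at h2
    nlinarith
  have hfac : ∀ j ∈ (range K).erase k, (((nd T s k + u + 1 / 2 : ℝ) : ℂ) - nd T s j) /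
        (((nd T s k + u + 1 / 2 : ℝ) : ℂ) - zr T s h j) =
      (((nd T s k + u : ℝ) : ℂ) - nd T s j) / (((nd T s k + u : ℝ) : ℂ) - zr T s h j) *
        (1 + eps (y j) (η j)) := by
    intro j hj
    have h1 := hl j hj
    have h2 := hy j hj
    have hy0 : y j ≠ 0 := by
      intro h0
      rw [h0, abs_zero] at h2
      nlinarith
    have hη0 : η j ≠ 0 := by
      intro h0
      have := hη j
      rw [h0, abs_zero] at this
      linarith
    have e1 : (((nd T s k + u + 1 / 2 : ℝ) : ℂ) - nd T s j) = ((y j + 1 / 2 : ℝ) : ℂ) := by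
      simp only [nd, y]; push_cast; ring
    have e2 : (((nd T s k + u + 1 / 2 : ℝ) : ℂ) - zr T s h j) =
        ((y j + 1 / 2 : ℝ) : ℂ) - Complex.I * η j := by
      simp only [nd, zr, y, η]; push_cast; ring
    have e3 : (((nd T s k + u : ℝ) : ℂ) - nd T s j) = ((y j : ℝ) : ℂ) := by
      simp only [nd, y]; push_cast; ring
    have e4 : (((nd T s k + u : ℝ) : ℂ) - zr T s h j) = ((y j : ℝ) : ℂ) - Complex.I * η j := by
      simp only [nd, zr, y, η]; push_cast; ring
    rw [e1, e2, e3, e4]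
    exact fac _ _ hy0 hη0
  rw [prod_congr rfl hfac, prod_mul_distrib, ← mul_sub_one, norm_mul, mul_comm]
  refine mul_le_mul_of_nonneg_right ?_ (norm_nonneg _)
  have hq : σ ≤ Real.sqrt s := Real.le_sqrt_of_sq_le hσ'
  have hq2 : 31 ≤ Real.sqrt s := Real.le_sqrt_of_sq_le (by linarith)
  have hS : ∑ j ∈ (range K).erase k, ‖eps (y j) (η j)‖ ≤ 21 / 2 / Real.sqrt s := by
    calc ∑ j ∈ (range K).erase k, ‖eps (y j) (η j)‖
        ≤ ∑ j ∈ (range K).erase k, 7 / 4 / Real.sqrt s * A |(k : ℝ) - j| :=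
          sum_le_sum fun j hj => eps_le hs hh hh' (hl j hj) (hη j) (hy j hj)
      _ = 7 / 4 / Real.sqrt s * ∑ j ∈ (range K).erase k, A |(k : ℝ) - j| := by rw [mul_sum]
      _ ≤ 7 / 4 / Real.sqrt s * 6 :=
          mul_le_mul_of_nonneg_left (sum_erase K k) (by positivity)
      _ = 21 / 2 / Real.sqrt s := by ring
  have hS0 : 0 ≤ ∑ j ∈ (range K).erase k, ‖eps (y j) (η j)‖ := sum_nonneg fun j _ => norm_nonneg _
  have hS1 : 21 / 2 / Real.sqrt s ≤ 1 := by
    rw [div_le_one (by linarith)]; linarith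
  have h1 := Finset.norm_prod_one_add_sub_one_le ((range K).erase k) fun j => eps (y j) (η j)
  set S := ∑ j ∈ (range K).erase k, ‖eps (y j) (η j)‖ with hSd
  have h2 : |Real.exp S - 1| ≤ 2 * |S| :=
    Real.abs_exp_sub_one_le (by rw [abs_of_nonneg hS0]; linarith)
  rw [abs_of_nonneg hS0] at h2
  have h3 := le_abs_self (Real.exp S - 1)
  have h4 : 30 / Real.sqrt s ≤ 30 / σ := div_le_div_of_nonneg_left (by norm_num) hσ hq
  have h5 : 2 * (21 / 2 / Real.sqrt s) ≤ 30 / Real.sqrt s := by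
    rw [← mul_div_assoc]
    exact div_le_div_of_nonneg_right (by norm_num) (by linarith)
  linarith

end Pool.Agent.H590Z.HC
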